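import Pool.Agent.Lib.MP_571595_lc.MORT.Base

/-!
# MORT, module SYS: the transitions in coordinates, both sides
-/

set_option autoImplicit false

namespace Pool.Agent.Lib.MP_571595_lc.MORT.H63

theorem rho_zero {J Q R : Type} [Fintype J] {C : CM J Q R} (D : Data C) : D.rho 0 = 1 := by
  have h := D.rho_add 0 0
  rw [add_zero] at h
  exact (mul_eq_left.mp h.symm)

theorem rho_neg {J Q R : Type} [Fintype J] {C : CM J Q R} (D : Data C) (z : J → ℤ) :
    D.rho (-z) = (D.rho z)⁻¹ := by
  have h := D.rho_add (-z) z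
  rw [neg_add_cancel, rho_zero] at h
  exact eq_inv_of_mul_eq_one_left h.symm

theorem act3 (h : MobStatement) (T S : Ty) (hS : S = T.op) (o : ℚ) (u t : ℚˣ) (z : ℚ) (hz : z ≠ 0)
    (h1 : o + z ≠ 0) (h2 : o + ((t : ℚ) * (o + z))⁻¹ ≠ 0) (hu : (u : ℚ) ^ S.sg = t) :
    (El T o * Dg u * El S o) • pt S z = pt T (o + ((t : ℚ) * (o + z))⁻¹) := by
  subst hS
  have ht : (t : ℚ) ≠ 0 := t.ne_zero
  have h1' : z + o ≠ 0 := by rwa [add_comm]
  have h3 : (t : ℚ) * (o + z) ≠ 0 := mul_ne_zero ht h1
  rw [mul_smul, mul_smul, h.el_pt _ _ _ hz h1', h.dg_pt _ _ _ h1', hu, h.pt_op, add_comm z o,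
    h.el_pt _ _ _ (inv_ne_zero h3) (by rwa [add_comm]), add_comm]

theorem act2 (h : MobStatement) (T S : Ty) (hS : S = T.op) (o : ℚ) (z : ℚ) (hz : z ≠ 0)
    (h1 : o + z ≠ 0) (h2 : o + (1 * (o + z))⁻¹ ≠ 0) :
    (El T o * El S o) • pt S z = pt T (o + (1 * (o + z))⁻¹) := by
  subst hS
  have h1' : z + o ≠ 0 := by rwa [add_comm]
  rw [one_mul] at h2 ⊢
  rw [mul_smul, h.el_pt _ _ _ hz h1', h.pt_op, add_comm z o,
    h.el_pt _ _ _ (inv_ne_zero h1) (by rwa [add_comm]), add_comm]

theorem sys (h : MobStatement) : SysStatement where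
  trav_tgt := by
    intro J Q R C l τ j hj
    cases τ <;> cases l <;> simp_all [Tr.trav, tgtS, srcS, Tr.a, Tr.b]
  gate_ty := by
    intro J Q R C l τ hj
    cases τ <;> cases l <;> simp_all [Tr.trav, tgtS, srcS, Tr.a, Tr.b, St.ty, Ty.op]
  trav_act := by
    intro J Q R _ _ C D l τ j z hj hz
    cases τ <;> cases l <;>
      simp_all [Tr.trav, srcS, Tr.a, Tr.b, St.ty, Data.lab, Data.g, epsS, h.dg_inv, h.dg_pt,
        rho_neg, Ty.sg]
  gate_act := by
    intro J Q R _ _ C D l τ z hj hz h1 h2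
    cases τ with
    | tU q j => simp [Tr.trav] at hj
    | tL r j => simp [Tr.trav] at hj
    | aU j => simp [Tr.trav] at hj
    | aL j => simp [Tr.trav] at hj
    | gU r =>
      cases l
      · simp only [Tr.z, srcS, tgtS, Tr.a, Tr.b, St.ty, Data.lab, Data.g, sgnS, St.asc, Data.out,
          cond_false, if_true, one_mul, rho_zero, Units.val_one] at h1 h2 ⊢
        have := act2 h .U .L rfl D.p z hz h1 (by rwa [one_mul])
        rwa [one_mul] at this
      · simp only [Tr.z, srcS, tgtS, Tr.a, Tr.b, St.ty, Data.lab, Data.g, sgnS, St.asc, Data.out,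
          cond_true, Bool.false_eq_true, if_false, one_mul, rho_zero, Units.val_one,
          neg_one_mul, mul_inv_rev, h.el_inv] at h1 h2 ⊢
        have := act2 h .L .U rfl (-D.p) z hz h1 (by rwa [one_mul])
        rwa [one_mul] at this
    | gL r =>
      cases l
      · simp only [Tr.z, srcS, tgtS, Tr.a, Tr.b, St.ty, Data.lab, Data.g, sgnS, St.asc, Data.out,
          cond_false, if_true, one_mul] at h1 h2 ⊢
        exact act3 h .L .U rfl D.s (D.rho (C.del r)) (D.rho (C.del r)) z hz h1 h2 (by simp [Ty.sg])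
      · simp only [Tr.z, srcS, tgtS, Tr.a, Tr.b, St.ty, Data.lab, Data.g, sgnS, St.asc, Data.out,
          cond_true, Bool.false_eq_true, if_false,
          neg_one_mul, mul_inv_rev, h.el_inv, h.dg_inv] at h1 h2 ⊢
        rw [← mul_assoc]
        have := act3 h .U .L rfl (-D.s) (D.rho (C.del r))⁻¹ (D.rho (C.del r)) z hz h1
          (by rwa [mul_inv_rev]) (by simp [Ty.sg])
        rwa [mul_inv_rev] at this
    | g0 =>
      cases l
      · simp only [Tr.z, srcS, tgtS, Tr.a, Tr.b, St.ty, Data.lab, Data.g, sgnS, St.asc, Data.out,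
          cond_false, if_true, one_mul, rho_zero, Units.val_one] at h1 h2 ⊢
        have := act2 h .L .U rfl D.s z hz h1 (by rwa [one_mul])
        rwa [one_mul] at this
      · simp only [Tr.z, srcS, tgtS, Tr.a, Tr.b, St.ty, Data.lab, Data.g, sgnS, St.asc, Data.out,
          cond_true, Bool.false_eq_true, if_false, one_mul, rho_zero, Units.val_one,
          neg_one_mul, mul_inv_rev, h.el_inv] at h1 h2 ⊢
        have := act2 h .U .L rfl (-D.s) z hz h1 (by rwa [one_mul])
        rwa [one_mul] at this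
    | aG =>
      cases l
      · simp only [Tr.z, srcS, tgtS, Tr.a, Tr.b, St.ty, Data.lab, Data.g, sgnS, St.asc, Data.out,
          cond_false, Bool.true_eq_false, if_false, one_mul, rho_zero, Units.val_one,
          neg_one_mul] at h1 h2 ⊢
        have := act2 h .U .L rfl (-D.p) z hz h1 (by rwa [one_mul])
        rwa [one_mul] at this
      · simp only [Tr.z, srcS, tgtS, Tr.a, Tr.b, St.ty, Data.lab, Data.g, sgnS, St.asc, Data.out,
          cond_true, if_true, one_mul, rho_zero, Units.val_one,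
          mul_inv_rev, h.el_inv, neg_neg] at h1 h2 ⊢
        have := act2 h .L .U rfl D.p z hz h1 (by rwa [one_mul])
        rwa [one_mul] at this
    | aH =>
      cases l
      · simp only [Tr.z, srcS, tgtS, Tr.a, Tr.b, St.ty, Data.lab, Data.g, sgnS, St.asc, Data.out,
          cond_false, Bool.true_eq_false, if_false, one_mul, rho_zero, Units.val_one,
          neg_one_mul] at h1 h2 ⊢
        have := act2 h .L .U rfl (-D.s) z hz h1 (by rwa [one_mul])
        rwa [one_mul] at this
      · simp only [Tr.z, srcS, tgtS, Tr.a, Tr.b, St.ty, Data.lab, Data.g, sgnS, St.asc, Data.out,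
          cond_true, if_true, one_mul, rho_zero, Units.val_one,
          mul_inv_rev, h.el_inv, neg_neg] at h1 h2 ⊢
        have := act2 h .U .L rfl D.s z hz h1 (by rwa [one_mul])
        rwa [one_mul] at this

end Pool.Agent.Lib.MP_571595_lc.MORT.H63
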